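import Pool.Agent.Q231.Jump.Step

/-!
# A game with nine nodes, seven agents and four types
-/

namespace Pool.Agent.Q231.Jump

/-- the edges of the graph -/
def edges : List (Fin 9 × Fin 9) := [(0, 1), (0, 3), (0, 4), (0, 7), (1, 2), (1, 4), (1, 5), (2, 3),
  (2, 5), (2, 6), (3, 6), (3, 7), (4, 6), (5, 7), (4, 8), (5, 8), (6, 8), (7, 8)]

/-- the graph -/
def G9 : SimpleGraph (Fin 9) where
  Adj x y := (x, y) ∈ edges ∨ (y, x) ∈ edges
  symm := ⟨fun _ _ h => h.symm⟩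
  loopless := ⟨by decide⟩

instance : DecidableRel G9.Adj := fun x y => inferInstanceAs (Decidable ((x, y) ∈ edges ∨ _))

/-- the types of the agents -/
def typ7 : Fin 7 → Fin 4 := ![0, 0, 1, 1, 2, 2, 3]

/-- the positions of the agents in the cycle -/
def pos : List (List (Fin 9)) := [[1, 7, 2, 5, 0, 6, 8], [1, 7, 2, 5, 3, 6, 8],
  [1, 7, 2, 4, 3, 6, 8], [0, 7, 2, 4, 3, 6, 8], [0, 7, 2, 4, 3, 5, 8], [0, 7, 1, 4, 3, 5, 8],
  [0, 6, 1, 4, 3, 5, 8], [0, 6, 1, 4, 2, 5, 8], [0, 6, 1, 7, 2, 5, 8], [3, 6, 1, 7, 2, 5, 8],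
  [3, 6, 1, 7, 2, 4, 8], [3, 6, 0, 7, 2, 4, 8], [3, 5, 0, 7, 2, 4, 8], [3, 5, 0, 7, 1, 4, 8],
  [3, 5, 0, 6, 1, 4, 8], [2, 5, 0, 6, 1, 4, 8], [2, 5, 0, 6, 1, 7, 8], [2, 5, 3, 6, 1, 7, 8],
  [2, 4, 3, 6, 1, 7, 8], [2, 4, 3, 6, 0, 7, 8], [2, 4, 3, 5, 0, 7, 8], [1, 4, 3, 5, 0, 7, 8],
  [1, 4, 3, 5, 0, 6, 8], [1, 4, 2, 5, 0, 6, 8], [1, 7, 2, 5, 0, 6, 8]]

/-- the agents that jump -/
def movers : List (Fin 7) := [4, 3, 0, 5, 2, 1, 4, 3, 0, 5, 2, 1, 4, 3, 0, 5, 2, 1, 4, 3, 0, 5, 2, 1]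

/-- the cycle -/
def cyc (j : ℕ) (i : Fin 7) : Fin 9 := (pos.getD j []).getD i 0

/-- the utility as a cardinality of a finite set -/
def util (σ : Fin 7 → Fin 9) (i : Fin 7) : ℕ :=
  (Finset.univ.filter fun t : Fin 4 => t ≠ typ7 i ∧ ∃ j, G9.Adj (σ i) (σ j) ∧ typ7 j = t).card

theorem utility_eq (σ : Fin 7 → Fin 9) (i : Fin 7) : utility G9 typ7 σ i = util σ i := by
  unfold utility util
  rw [← Set.ncard_coe_finset]
  congr 1
  ext t
  simp

set_option maxRecDepth 100000 in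
theorem step9 : ∀ j < 24, (∀ i, cyc j i ≠ cyc (j + 1) (movers.getD j 0)) ∧
    (∀ i, i ≠ movers.getD j 0 → cyc (j + 1) i = cyc j i) ∧
    util (cyc j) (movers.getD j 0) < util (cyc (j + 1)) (movers.getD j 0) := by
  decide

theorem cycle9 : HasImprovingResponseCycle G9 typ7 := by
  refine ⟨24, cyc, by norm_num, by funext i; revert i; decide, ?_, fun j hj => ?_⟩
  · intro j hj
    have : ∀ j ≤ 24, ∀ a b : Fin 7, cyc j a = cyc j b → a = b := by decide
    exact fun a b => this j hj a b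
  · obtain ⟨h1, h2, h3⟩ := step9 j hj
    exact ⟨movers.getD j 0, cyc (j + 1) (movers.getD j 0), h1, h2, rfl, by
      rw [utility_eq, utility_eq]; exact h3⟩

theorem connected9 : G9.Connected := by
  have h : ∀ x, G9.Reachable 8 x := by
    have a4 : G9.Reachable 8 4 := SimpleGraph.Adj.reachable (by decide)
    have a5 : G9.Reachable 8 5 := SimpleGraph.Adj.reachable (by decide)
    have a6 : G9.Reachable 8 6 := SimpleGraph.Adj.reachable (by decide)
    have a7 : G9.Reachable 8 7 := SimpleGraph.Adj.reachable (by decide)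
    intro x
    fin_cases x
    · exact a4.trans (SimpleGraph.Adj.reachable (by decide))
    · exact a4.trans (SimpleGraph.Adj.reachable (by decide))
    · exact a5.trans (SimpleGraph.Adj.reachable (by decide))
    · exact a6.trans (SimpleGraph.Adj.reachable (by decide))
    · exact a4
    · exact a5
    · exact a6
    · exact a7
    · exact SimpleGraph.Reachable.refl _
  exact ⟨fun x y => (h x).symm.trans (h y)⟩

theorem good4 : Good 4 := by
  refine ⟨Fin 9, Fin 7, inferInstance, inferInstance, G9, typ7, by simp, connected9, ?_, cycle9⟩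
  decide

end Pool.Agent.Q231.Jump
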