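import Mathlib

/-!
# Variety-seeking jump games
-/

namespace Pool.Agent.Q231.Jump

variable {V A T : Type}

/-- The **utility** of agent `i` in the assignment `σ` (agent `j` is at the node `σ j`, the type of
agent `j` is `typ j`): the number of types, other than the type of `i`, that occur among the agents at
the neighbours of the node of `i`. -/
noncomputable def utility (G : SimpleGraph V) (typ : A → T) (σ : A → V) (i : A) : ℕ :=
  {t : T | t ≠ typ i ∧ ∃ j, G.Adj (σ i) (σ j) ∧ typ j = t}.ncard

/-- `τ` arises from the assignment `σ` by an **improving jump**: some agent `i` moves to an empty node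
`v`, and its utility after the jump is strictly larger than before. -/
def ImprovingJump (G : SimpleGraph V) (typ : A → T) (σ τ : A → V) : Prop :=
  ∃ i v, (∀ j, σ j ≠ v) ∧ (∀ j, j ≠ i → τ j = σ j) ∧ τ i = v ∧
    utility G typ σ i < utility G typ τ i

/-- The game has an **improving response cycle**: a finite sequence `σ 0, σ 1, ..., σ m = σ 0` of
assignments (of the agents to distinct nodes) with `m ≥ 1`, each of which arises from the previous one
by an improving jump of one agent. -/
def HasImprovingResponseCycle (G : SimpleGraph V) (typ : A → T) : Prop :=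
  ∃ (m : ℕ) (σ : ℕ → A → V), 1 ≤ m ∧ σ m = σ 0 ∧ (∀ j ≤ m, Function.Injective (σ j)) ∧
    ∀ j < m, ImprovingJump G typ (σ j) (σ (j + 1))

end Pool.Agent.Q231.Jump
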