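import Pool.Agent.Q231.Jump.Defs

/-!
# One more type
-/

namespace Pool.Agent.Q231.Jump

variable {V A : Type}

/-- adjacency in the cone -/
def coneAdj (G : SimpleGraph V) : Option V → Option V → Prop
  | some a, some b => G.Adj a b
  | none, some _ => True
  | some _, none => True
  | none, none => False

/-- a new node adjacent to all nodes -/
def cone (G : SimpleGraph V) : SimpleGraph (Option V) where
  Adj := coneAdj G
  symm := ⟨fun x y h => by
    cases x <;> cases y <;> simp_all [coneAdj, G.adj_comm]⟩
  loopless := ⟨fun x h => by cases x <;> simp_all [coneAdj]⟩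

theorem cone_none_some (G : SimpleGraph V) (x : V) : (cone G).Adj none (some x) := trivial

theorem cone_some_none (G : SimpleGraph V) (x : V) : (cone G).Adj (some x) none := trivial

theorem cone_some_some (G : SimpleGraph V) (x y : V) :
    (cone G).Adj (some x) (some y) ↔ G.Adj x y := Iff.rfl

/-- the new agent at the new node has a new type -/
def typ' {k : ℕ} (typ : A → Fin k) : Option A → Fin (k + 1)
  | none => Fin.last k
  | some a => (typ a).castSucc

/-- the new assignment -/
def lift (σ : A → V) : Option A → Option V := Option.map σ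

theorem utility_lift [Finite A] {k : ℕ} (G : SimpleGraph V) (typ : A → Fin k) (σ : A → V) (i : A) :
    utility (cone G) (typ' typ) (lift σ) (some i) = utility G typ σ i + 1 := by
  unfold utility
  have h : {t : Fin (k + 1) | t ≠ typ' typ (some i) ∧
      ∃ j, (cone G).Adj (lift σ (some i)) (lift σ j) ∧ typ' typ j = t} =
      insert (Fin.last k) (Fin.castSucc '' {t : Fin k | t ≠ typ i ∧
        ∃ j, G.Adj (σ i) (σ j) ∧ typ j = t}) := by
    ext t
    simp only [Set.mem_ofPred_eq, Set.mem_insert_iff, Set.mem_image]
    constructor
    · rintro ⟨h1, j, h2, rfl⟩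
      cases j with
      | none => exact Or.inl rfl
      | some j =>
        right
        refine ⟨typ j, ⟨fun h => h1 ?_, j, h2, rfl⟩, rfl⟩
        simp only [typ', h]
    · rintro (rfl | ⟨t, ⟨h1, j, h2, rfl⟩, rfl⟩)
      · exact ⟨(Fin.castSucc_ne_last _).symm, none, cone_some_none G _, rfl⟩
      · refine ⟨fun h => h1 ?_, some j, h2, rfl⟩
        exact Fin.castSucc_injective _ h
  rw [h, Set.ncard_insert_of_notMem, Set.ncard_image_of_injective _ (Fin.castSucc_injective k)]
  rintro ⟨t, _, ht⟩
  exact Fin.castSucc_ne_last _ ht

theorem jump_lift [Finite A] {k : ℕ} {G : SimpleGraph V} {typ : A → Fin k} {σ τ : A → V}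
    (h : ImprovingJump G typ σ τ) :
    ImprovingJump (cone G) (typ' typ) (lift σ) (lift τ) := by
  obtain ⟨i, v, h1, h2, h3, h4⟩ := h
  refine ⟨some i, some v, ?_, ?_, ?_, ?_⟩
  · intro j
    cases j with
    | none => exact nofun
    | some j => exact fun h => h1 j (Option.some_injective _ h)
  · intro j hj
    cases j with
    | none => rfl
    | some j => exact congrArg some (h2 j fun h => hj (congrArg some h))
  · exact congrArg some h3
  · rw [utility_lift, utility_lift]
    omega

theorem cycle_lift [Finite A] {k : ℕ} {G : SimpleGraph V} {typ : A → Fin k}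
    (h : HasImprovingResponseCycle G typ) :
    HasImprovingResponseCycle (cone G) (typ' typ) := by
  obtain ⟨m, σ, hm, h0, hinj, hj⟩ := h
  refine ⟨m, fun j => lift (σ j), hm, by simp only [h0], fun j hj' => ?_, fun j hj' =>
    jump_lift (hj j hj')⟩
  exact Option.map_injective (hinj j hj')

theorem cone_connected (G : SimpleGraph V) : (cone G).Connected := by
  refine ⟨fun x y => ?_⟩
  have h : ∀ x, (cone G).Reachable none x := by
    intro x
    cases x with
    | none => exact SimpleGraph.Reachable.refl _
    | some x => exact SimpleGraph.Adj.reachable (cone_none_some G x)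
  exact (h x).symm.trans (h y)

theorem typ'_surjective {k : ℕ} {typ : A → Fin k} (h : Function.Surjective typ) :
    Function.Surjective (typ' typ) := by
  intro t
  induction t using Fin.lastCases with
  | last => exact ⟨none, rfl⟩
  | cast t =>
    obtain ⟨a, rfl⟩ := h t
    exact ⟨some a, rfl⟩

/-- the statement for `k` types -/
def Good (k : ℕ) : Prop := ∃ (V A : Type) (_ : Fintype V) (_ : Fintype A) (G : SimpleGraph V)
  (typ : A → Fin k), Fintype.card V = Fintype.card A + 2 ∧ G.Connected ∧
    Function.Surjective typ ∧ HasImprovingResponseCycle G typ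

theorem Good.succ {k : ℕ} (h : Good k) : Good (k + 1) := by
  obtain ⟨V, A, _, _, G, typ, h1, h2, h3, h4⟩ := h
  refine ⟨Option V, Option A, inferInstance, inferInstance, cone G, typ' typ, ?_,
    cone_connected G, typ'_surjective h3, cycle_lift h4⟩
  rw [Fintype.card_option, Fintype.card_option, h1]

theorem Good.of_le {k l : ℕ} (h : Good k) (hkl : k ≤ l) : Good l := by
  induction l, hkl using Nat.le_induction with
  | base => exact h
  | succ l _ ih => exact ih.succ

end Pool.Agent.Q231.Jump
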